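import Pool.Agent.Helper22.AC.Defs
import Pool.Agent.Helper93.EX.Defs

/-!
# AM-C5 (MP_fb29e9_nt): convergence of the moments
-/

open MeasureTheory Real Set Filter Topology

set_option autoImplicit false
set_option linter.unusedVariables false

namespace Pool.Agent.Helper10.AM

open Pool.Agent.Helper22.AE
open Pool.Agent.Helper22.AC (cntc)
open Pool.Agent.Helper93.EX (Mx ak prim sn fJ)

/-- bounded and measurable on `[X, 2 X]` -/
private def BM (X : ℝ) (f : ℝ → ℝ) : Prop :=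
  AEMeasurable f (volume.restrict (Icc X (2 * X))) ∧ ∃ B : ℝ, ∀ R ∈ Icc X (2 * X), |f R| ≤ B

private lemma BM.int {X : ℝ} {f : ℝ → ℝ} (h : BM X f) : IntegrableOn f (Icc X (2 * X)) := by
  obtain ⟨h1, B, hB⟩ := h
  have : IsFiniteMeasure (volume.restrict (Icc X (2 * X))) := ⟨by
    rw [Measure.restrict_apply_univ]
    exact measure_Icc_lt_top⟩
  refine Integrable.of_bound h1.aestronglyMeasurable B ?_
  rw [ae_restrict_iff' measurableSet_Icc]
  exact Eventually.of_forall fun R hR => by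
    rw [Real.norm_eq_abs]
    exact hB R hR

private lemma BM.sub {X : ℝ} {f g : ℝ → ℝ} (hf : BM X f) (hg : BM X g) : BM X (fun R => f R - g R) := by
  obtain ⟨h1, B, hB⟩ := hf
  obtain ⟨h2, B', hB'⟩ := hg
  exact ⟨h1.sub h2, B + B', fun R hR => (abs_sub _ _).trans (add_le_add (hB R hR) (hB' R hR))⟩

private lemma BM.mul {X : ℝ} {f g : ℝ → ℝ} (hf : BM X f) (hg : BM X g) : BM X (fun R => f R * g R) := by
  obtain ⟨h1, B, hB⟩ := hf
  obtain ⟨h2, B', hB'⟩ := hg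
  refine ⟨h1.mul h2, B * B', fun R hR => ?_⟩
  rw [abs_mul]
  exact mul_le_mul (hB R hR) (hB' R hR) (abs_nonneg _) ((abs_nonneg _).trans (hB R hR))

private lemma BM.pow {X : ℝ} {f : ℝ → ℝ} (hf : BM X f) (n : ℕ) : BM X (fun R => f R ^ n) := by
  obtain ⟨h1, B, hB⟩ := hf
  refine ⟨h1.pow_const n, B ^ n, fun R hR => ?_⟩
  rw [abs_pow]
  exact pow_le_pow_left₀ (abs_nonneg _) (hB R hR) n

private lemma BM.abs {X : ℝ} {f : ℝ → ℝ} (hf : BM X f) : BM X (fun R => |f R|) := by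
  obtain ⟨h1, B, hB⟩ := hf
  refine ⟨h1.abs, B, fun R hR => ?_⟩
  rw [abs_abs]
  exact hB R hR

private lemma BM.cont {X : ℝ} {f : ℝ → ℝ} (hf : ContinuousOn f (Icc X (2 * X))) : BM X f := by
  refine ⟨(hf.aemeasurable measurableSet_Icc), ?_⟩
  obtain ⟨C, hC⟩ := isCompact_Icc.exists_bound_of_continuousOn hf
  exact ⟨C, fun R hR => by simpa [Real.norm_eq_abs] using hC R hR⟩

private lemma box_of {G : ℝ → ℝ} {N : ℕ} (hG : ∀ θ, |G θ| ≤ N) {k : ℤ × ℤ}
    (hk : ∀ θ : ℝ, (k.1 : ℝ) * cos θ + (k.2 : ℝ) * sin θ ≤ G θ) : k ∈ box N := by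
  have a1 := (hk 0).trans ((le_abs_self _).trans (hG 0))
  have a2 := (hk π).trans ((le_abs_self _).trans (hG π))
  have a3 := (hk (π / 2)).trans ((le_abs_self _).trans (hG (π / 2)))
  have a4 := (hk (-(π / 2))).trans ((le_abs_self _).trans (hG (-(π / 2))))
  simp only [cos_zero, sin_zero, mul_one, mul_zero, add_zero, zero_add, cos_pi, sin_pi, cos_pi_div_two,
    sin_pi_div_two, cos_neg, sin_neg, mul_neg] at a1 a2 a3 a4
  simp only [box, Finset.mem_product, Finset.mem_Icc]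
  refine ⟨⟨?_, ?_⟩, ?_, ?_⟩
  · have : -(N : ℝ) ≤ (k.1 : ℝ) := by linarith
    exact_mod_cast this
  · exact_mod_cast a1
  · have : -(N : ℝ) ≤ (k.2 : ℝ) := by linarith
    exact_mod_cast this
  · exact_mod_cast a3

/-- the number of points is bounded and measurable -/
private lemma cntc_bm {H : ℝ → ℝ} (hH : Continuous H) (hp : Function.Periodic H (2 * π)) (c : ℝ × ℝ) {X : ℝ}
    (hX : 1 ≤ X) : BM X (fun R => cntc H c R) := by
  classical
  obtain ⟨C, hC⟩ := (isCompact_Icc : IsCompact (Icc (0 : ℝ) (2 * π))).exists_bound_of_continuousOn hH.continuousOn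
  have hC' : ∀ θ, |H θ| ≤ C := by
    intro θ
    obtain ⟨y, hy, hy'⟩ := hp.exists_mem_Ico₀ (by positivity) θ
    rw [hy']
    have := hC y ⟨hy.1, hy.2.le⟩
    rwa [Real.norm_eq_abs] at this
  have hC0 : 0 ≤ C := (abs_nonneg _).trans (hC' 0)
  obtain ⟨N, hN⟩ := exists_nat_ge (2 * X * C + (|c.1| + |c.2|))
  have hb : ∀ R ∈ Icc X (2 * X), ∀ θ, |R * H θ + (c.1 * cos θ + c.2 * sin θ)| ≤ N := by
    intro R hR θ
    refine le_trans ?_ hN
    refine (abs_add_le _ _).trans (add_le_add ?_ ((abs_add_le _ _).trans (add_le_add ?_ ?_)))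
    · rw [abs_mul, abs_of_pos (by linarith [hR.1])]
      exact mul_le_mul hR.2 (hC' θ) (abs_nonneg _) (by linarith)
    · rw [abs_mul]
      exact mul_le_of_le_one_right (abs_nonneg _) (abs_cos_le_one θ)
    · rw [abs_mul]
      exact mul_le_of_le_one_right (abs_nonneg _) (abs_sin_le_one θ)
  have hcnt : ∀ R ∈ Icc X (2 * X), cntc H c R = ∑ k ∈ box N,
      (if (∀ θ : ℝ, ((k.1 : ℝ) - c.1) * cos θ + ((k.2 : ℝ) - c.2) * sin θ ≤ R * H θ) then (1 : ℝ) else 0) := by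
    intro R hR
    unfold cntc
    rw [Nat.subtype_card ((box N).filter fun k : ℤ × ℤ =>
      ∀ θ : ℝ, ((k.1 : ℝ) - c.1) * cos θ + ((k.2 : ℝ) - c.2) * sin θ ≤ R * H θ)]
    · rw [Finset.sum_boole]
    · intro k
      rw [Finset.mem_filter]
      refine ⟨fun h => h.2, fun h => ⟨box_of (G := fun θ => R * H θ + (c.1 * cos θ + c.2 * sin θ)) (hb R hR)
        (fun θ => ?_), h⟩⟩
      have := h θ
      linarith
  have hm : Measurable fun R : ℝ => ∑ k ∈ box N,
      (if (∀ θ : ℝ, ((k.1 : ℝ) - c.1) * cos θ + ((k.2 : ℝ) - c.2) * sin θ ≤ R * H θ) then (1 : ℝ) else 0) := by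
    refine Finset.measurable_sum _ fun k _ => ?_
    refine Measurable.ite ?_ measurable_const measurable_const
    have hc : {R : ℝ | ∀ θ : ℝ, ((k.1 : ℝ) - c.1) * cos θ + ((k.2 : ℝ) - c.2) * sin θ ≤ R * H θ} =
        ⋂ θ : ℝ, {R : ℝ | ((k.1 : ℝ) - c.1) * cos θ + ((k.2 : ℝ) - c.2) * sin θ ≤ R * H θ} := by
      ext x
      simp
    rw [hc]
    exact (isClosed_iInter fun θ => isClosed_le continuous_const (continuous_id.mul continuous_const)).measurableSet
  constructor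
  · refine hm.aemeasurable.congr ?_
    rw [EventuallyEq, ae_restrict_iff' measurableSet_Icc]
    exact Eventually.of_forall fun R hR => (hcnt R hR).symm
  · refine ⟨((box N).card : ℝ), fun R hR => ?_⟩
    change |cntc H c R| ≤ _
    rw [hcnt R hR]
    refine (Finset.abs_sum_le_sum_abs _ _).trans ?_
    calc ∑ k ∈ box N, |(if (∀ θ : ℝ, ((k.1 : ℝ) - c.1) * cos θ + ((k.2 : ℝ) - c.2) * sin θ ≤ R * H θ) then (1 : ℝ) else 0)|
        ≤ ∑ k ∈ box N, (1 : ℝ) := Finset.sum_le_sum fun k _ => by split_ifs <;> simp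
      _ = ((box N).card : ℝ) := by simp

private lemma fJ_cont (J : ℕ) : Continuous (fJ J) := by
  unfold fJ
  fun_prop

private lemma fJ_bd (J : ℕ) : ∃ B : ℝ, ∀ x, |fJ J x| ≤ B := by
  refine ⟨|1 / π| * ∑ j ∈ Finset.range J, |((j + 1 : ℕ) : ℝ) ^ (-(3 / 2) : ℝ)|, fun x => ?_⟩
  unfold fJ
  rw [abs_mul]
  refine mul_le_mul_of_nonneg_left ?_ (abs_nonneg _)
  refine (Finset.abs_sum_le_sum_abs _ _).trans (Finset.sum_le_sum fun j _ => ?_)
  rw [abs_mul]
  exact mul_le_of_le_one_right (abs_nonneg _) (abs_cos_le_one _)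

private lemma Mx_cont (H : ℝ → ℝ) (N : ℕ) (c : ℝ × ℝ) : Continuous fun R => Mx H N R c := by
  unfold Mx
  refine continuous_finsetSum _ fun k _ => continuous_const.mul ((fJ_cont _).comp ?_)
  fun_prop

private lemma Mx_bd (H : ℝ → ℝ) (N : ℕ) : ∃ B : ℝ, 0 ≤ B ∧ ∀ R c, |Mx H N R c| ≤ B := by
  choose B hB using fJ_bd
  refine ⟨∑ k ∈ prim N, |ak H k| * B ((N - 1) / sn k), Finset.sum_nonneg fun k _ =>
    mul_nonneg (abs_nonneg _) ((abs_nonneg _).trans (hB _ 0)), fun R c => ?_⟩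
  unfold Mx
  refine (Finset.abs_sum_le_sum_abs _ _).trans (Finset.sum_le_sum fun k _ => ?_)
  rw [abs_mul]
  exact mul_le_mul_of_nonneg_left (hB _ _) (abs_nonneg _)

/-- the difference of two powers -/
private lemma pow_sub_le (u v : ℝ) (p : ℕ) : |u ^ p - v ^ p| ≤ p * (|u - v| * (|u| + |v|) ^ (p - 1)) := by
  rw [← Commute.all u v |>.mul_geom_sum₂]
  rw [abs_mul, mul_left_comm]
  refine mul_le_mul_of_nonneg_left ?_ (abs_nonneg _)
  refine (Finset.abs_sum_le_sum_abs _ _).trans ?_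
  calc ∑ i ∈ Finset.range p, |u ^ i * v ^ (p - 1 - i)| ≤ ∑ i ∈ Finset.range p, (|u| + |v|) ^ (p - 1) := by
        refine Finset.sum_le_sum fun i hi => ?_
        rw [abs_mul, abs_pow, abs_pow]
        have h1 : (|u| + |v|) ^ (p - 1) = (|u| + |v|) ^ i * (|u| + |v|) ^ (p - 1 - i) := by
          rw [← pow_add]
          congr 1
          have := Finset.mem_range.1 hi
          omega
        rw [h1]
        exact mul_le_mul (pow_le_pow_left₀ (abs_nonneg _) (by linarith [abs_nonneg v]) i)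
          (pow_le_pow_left₀ (abs_nonneg _) (by linarith [abs_nonneg u]) _) (by positivity) (by positivity)
    _ = p * (|u| + |v|) ^ (p - 1) := by simp

/-- Young's inequality -/
private lemma young {d s lam : ℝ} (hd : 0 ≤ d) (hs : 0 ≤ s) (hl : 0 < lam) {p q : ℕ} (hp : 1 ≤ p) (hpq : p ≤ q) :
    d * s ^ (p - 1) ≤ lam * (1 + s ^ q) + (lam⁻¹) ^ (q - 1) * d ^ q := by
  have hm1 : (1 : ℝ) ≤ max 1 s := le_max_left _ _
  have hms : s ≤ max 1 s := le_max_right _ _
  have hm0 : (0 : ℝ) < max 1 s := by linarith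
  have hmq : max 1 s ^ q ≤ 1 + s ^ q := by
    rcases le_total 1 s with h | h
    · rw [max_eq_right h]
      linarith
    · rw [max_eq_left h, one_pow]
      linarith [pow_nonneg hs q]
  have hsp : s ^ (p - 1) ≤ max 1 s ^ (p - 1) := pow_le_pow_left₀ hs hms _
  rcases le_total d (lam * max 1 s) with h | h
  · have h1 : d * s ^ (p - 1) ≤ lam * max 1 s ^ q := by
      calc d * s ^ (p - 1) ≤ (lam * max 1 s) * max 1 s ^ (p - 1) := mul_le_mul h hsp (by positivity) (by positivity)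
        _ = lam * max 1 s ^ p := by
            rw [mul_assoc, ← pow_succ']
            congr 2
            omega
        _ ≤ lam * max 1 s ^ q := mul_le_mul_of_nonneg_left (pow_le_pow_right₀ hm1 hpq) hl.le
    have h2 : 0 ≤ (lam⁻¹) ^ (q - 1) * d ^ q := by positivity
    have h3 : lam * max 1 s ^ q ≤ lam * (1 + s ^ q) := mul_le_mul_of_nonneg_left hmq hl.le
    linarith
  · have hm : max 1 s ≤ lam⁻¹ * d := by
      rw [inv_mul_eq_div, le_div_iff₀ hl]
      linarith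
    have h1 : d * s ^ (p - 1) ≤ (lam⁻¹) ^ (q - 1) * d ^ q := by
      calc d * s ^ (p - 1) ≤ d * (lam⁻¹ * d) ^ (q - 1) := by
            refine mul_le_mul_of_nonneg_left ?_ hd
            calc s ^ (p - 1) ≤ max 1 s ^ (p - 1) := hsp
              _ ≤ max 1 s ^ (q - 1) := pow_le_pow_right₀ hm1 (by omega)
              _ ≤ (lam⁻¹ * d) ^ (q - 1) := pow_le_pow_left₀ hm0.le hm _
        _ = (lam⁻¹) ^ (q - 1) * d ^ q := by
            rw [mul_pow, mul_left_comm, ← pow_succ']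
            congr 2
            omega
    have h2 : 0 ≤ lam * (1 + s ^ q) := by positivity
    linarith

/-- the pointwise inequality -/
private lemma ptw (u v v₁ : ℝ) {lam : ℝ} (hl : 0 < lam) {p q : ℕ} (hp : 1 ≤ p) (hpq : p ≤ q) :
    |u ^ p - v ^ p| ≤ p * lam * (1 + 6 ^ q * |v₁| ^ q) + p * lam * 6 ^ q * |u - v₁| ^ q +
      (p * lam * 6 ^ q + p * (lam⁻¹) ^ (q - 1)) * |u - v| ^ q := by
  have h1 := pow_sub_le u v p
  have h2 := young (abs_nonneg (u - v)) (add_nonneg (abs_nonneg u) (abs_nonneg v)) hl hp hpq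
  have h3 : (|u| + |v|) ^ q ≤ 6 ^ q * (|v₁| ^ q + |u - v₁| ^ q + |u - v| ^ q) := by
    set M := max |v₁| (max |u - v₁| |u - v|) with hM
    have e1 : |v₁| ≤ M := le_max_left _ _
    have e2 : |u - v₁| ≤ M := (le_max_left _ _).trans (le_max_right _ _)
    have e3 : |u - v| ≤ M := (le_max_right _ _).trans (le_max_right _ _)
    have hM0 : 0 ≤ M := (abs_nonneg _).trans e1
    have hu : |u| ≤ 2 * M := by
      have : |u| ≤ |u - v₁| + |v₁| := by
        have := abs_add_le (u - v₁) v₁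
        rwa [sub_add_cancel] at this
      linarith
    have hv : |v| ≤ 3 * M := by
      have : |v| ≤ |u - v| + |u| := by
        have := abs_sub (u) (u - v)
        rw [sub_sub_cancel] at this
        linarith
      linarith
    have h4 : (|u| + |v|) ^ q ≤ (6 * M) ^ q := pow_le_pow_left₀ (by positivity) (by linarith) q
    have h5 : M ^ q ≤ |v₁| ^ q + |u - v₁| ^ q + |u - v| ^ q := by
      have p1 : 0 ≤ |v₁| ^ q := by positivity
      have p2 : 0 ≤ |u - v₁| ^ q := by positivity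
      have p3 : 0 ≤ |u - v| ^ q := by positivity
      rcases max_choice |v₁| (max |u - v₁| |u - v|) with h | h
      · rw [hM, h]
        linarith
      · rcases max_choice |u - v₁| |u - v| with h' | h'
        · rw [hM, h, h']
          linarith
        · rw [hM, h, h']
          linarith
    rw [mul_pow] at h4
    exact h4.trans (mul_le_mul_of_nonneg_left h5 (by positivity))
  have hp0 : (0 : ℝ) ≤ p := Nat.cast_nonneg p
  calc |u ^ p - v ^ p| ≤ p * (|u - v| * (|u| + |v|) ^ (p - 1)) := h1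
    _ ≤ p * (lam * (1 + (|u| + |v|) ^ q) + (lam⁻¹) ^ (q - 1) * |u - v| ^ q) := mul_le_mul_of_nonneg_left h2 hp0
    _ ≤ p * (lam * (1 + 6 ^ q * (|v₁| ^ q + |u - v₁| ^ q + |u - v| ^ q)) + (lam⁻¹) ^ (q - 1) * |u - v| ^ q) := by
        refine mul_le_mul_of_nonneg_left ?_ hp0
        have := mul_le_mul_of_nonneg_left h3 hl.le
        nlinarith
    _ = _ := by ring

/-- the mean of a sum -/
private lemma mean3 {X : ℝ} (hX : 1 ≤ X) {F G1 G2 : ℝ → ℝ} (hF : BM X F) (hG1 : BM X G1) (hG2 : BM X G2)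
    {a b c e1 e2 : ℝ} (hb : 0 ≤ b) (hc : 0 ≤ c) (h : ∀ R ∈ Icc X (2 * X), F R ≤ a + b * G1 R + c * G2 R)
    (h1 : X⁻¹ * ∫ R in Icc X (2 * X), G1 R ≤ e1) (h2 : X⁻¹ * ∫ R in Icc X (2 * X), G2 R ≤ e2) :
    X⁻¹ * ∫ R in Icc X (2 * X), F R ≤ a + b * e1 + c * e2 := by
  have hX0 : 0 < X := by linarith
  have ha : IntegrableOn (fun _ : ℝ => a) (Icc X (2 * X)) := integrableOn_const measure_Icc_lt_top.ne
  have i1 : IntegrableOn (fun R => b * G1 R) (Icc X (2 * X)) := hG1.int.const_mul b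
  have i2 : IntegrableOn (fun R => c * G2 R) (Icc X (2 * X)) := hG2.int.const_mul c
  have i3 : IntegrableOn (fun R => a + b * G1 R) (Icc X (2 * X)) := ha.add i1
  have i4 : IntegrableOn (fun R => a + b * G1 R + c * G2 R) (Icc X (2 * X)) := i3.add i2
  have h3 : ∫ R in Icc X (2 * X), F R ≤ ∫ R in Icc X (2 * X), (a + b * G1 R + c * G2 R) :=
    setIntegral_mono_on hF.int i4 measurableSet_Icc h
  have h4 : ∫ R in Icc X (2 * X), (a + b * G1 R + c * G2 R) =
      X * a + b * (∫ R in Icc X (2 * X), G1 R) + c * ∫ R in Icc X (2 * X), G2 R := by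
    rw [integral_add i3 i2, integral_add ha i1, integral_const_mul, integral_const_mul, setIntegral_const, smul_eq_mul,
      Measure.real, Real.volume_Icc, ENNReal.toReal_ofReal (by linarith)]
    ring
  rw [h4] at h3
  calc X⁻¹ * ∫ R in Icc X (2 * X), F R ≤ X⁻¹ * (X * a + b * (∫ R in Icc X (2 * X), G1 R) + c * ∫ R in Icc X (2 * X), G2 R) :=
        mul_le_mul_of_nonneg_left h3 (by positivity)
    _ = a + b * (X⁻¹ * ∫ R in Icc X (2 * X), G1 R) + c * (X⁻¹ * ∫ R in Icc X (2 * X), G2 R) := by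
        field_simp
    _ ≤ a + b * e1 + c * e2 := by
        have q1 := mul_le_mul_of_nonneg_left h1 hb
        have q2 := mul_le_mul_of_nonneg_left h2 hc
        linarith

/-- the normalised error -/
private lemma u_bm {H : ℝ → ℝ} (hH : Continuous H) (hp : Function.Periodic H (2 * π)) (c : ℝ × ℝ) {X : ℝ}
    (hX : 1 ≤ X) : BM X (fun R => (cntc H c R - area H * R ^ 2) / sqrt R) := by
  have h1 : BM X (fun R => cntc H c R - area H * R ^ 2) :=
    (cntc_bm hH hp c hX).sub (BM.cont (by fun_prop))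
  have h2 : BM X (fun R => (sqrt R)⁻¹) := by
    refine BM.cont (ContinuousOn.inv₀ Real.continuous_sqrt.continuousOn fun R hR => ?_)
    exact (Real.sqrt_pos.2 (by linarith [hR.1])).ne'
  have h3 := h1.mul h2
  simpa only [div_eq_mul_inv] using h3

/-- the tail for the normalised error -/
private lemma tail_mean {H : ℝ → ℝ} (hH : Continuous H) (hp : Function.Periodic H (2 * π)) (c : ℝ × ℝ) {X : ℝ}
    (hX : 1 ≤ X) (N J : ℕ) {η : ℝ}
    (h : ∫ R in Icc X (2 * X), |cntc H c R - area H * R ^ 2 - sqrt R * Mx H N R c| ^ (2 * J) ≤ η * X ^ (J + 1)) :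
    X⁻¹ * ∫ R in Icc X (2 * X), |(cntc H c R - area H * R ^ 2) / sqrt R - Mx H N R c| ^ (2 * J) ≤ η := by
  have hX0 : 0 < X := by linarith
  have hv : BM X (fun R => Mx H N R c) := BM.cont (Mx_cont H N c).continuousOn
  have h1 : BM X (fun R => |(cntc H c R - area H * R ^ 2) / sqrt R - Mx H N R c| ^ (2 * J)) :=
    (((u_bm hH hp c hX).sub hv).abs).pow _
  have h2 : BM X (fun R => |cntc H c R - area H * R ^ 2 - sqrt R * Mx H N R c| ^ (2 * J)) :=
    ((((cntc_bm hH hp c hX).sub (BM.cont (by fun_prop))).sub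
      ((BM.cont Real.continuous_sqrt.continuousOn).mul hv)).abs).pow _
  have h3 : ∫ R in Icc X (2 * X), |(cntc H c R - area H * R ^ 2) / sqrt R - Mx H N R c| ^ (2 * J) ≤
      ∫ R in Icc X (2 * X), (X ^ J)⁻¹ * |cntc H c R - area H * R ^ 2 - sqrt R * Mx H N R c| ^ (2 * J) := by
    refine setIntegral_mono_on h1.int (h2.int.const_mul _) measurableSet_Icc fun R hR => ?_
    have hR0 : 0 < R := by linarith [hR.1]
    have hs : 0 < sqrt R := Real.sqrt_pos.2 hR0
    have e1 : (cntc H c R - area H * R ^ 2) / sqrt R - Mx H N R c =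
        (cntc H c R - area H * R ^ 2 - sqrt R * Mx H N R c) / sqrt R := by
      field_simp
    rw [e1, abs_div, div_pow, abs_of_pos hs, pow_mul (sqrt R), Real.sq_sqrt hR0.le, div_eq_mul_inv, mul_comm]
    refine mul_le_mul_of_nonneg_right ?_ (by positivity)
    exact inv_anti₀ (by positivity) (pow_le_pow_left₀ hX0.le hR.1 J)
  rw [integral_const_mul] at h3
  calc X⁻¹ * ∫ R in Icc X (2 * X), |(cntc H c R - area H * R ^ 2) / sqrt R - Mx H N R c| ^ (2 * J)
      ≤ X⁻¹ * ((X ^ J)⁻¹ * (η * X ^ (J + 1))) :=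
        mul_le_mul_of_nonneg_left (h3.trans (mul_le_mul_of_nonneg_left h (by positivity))) (by positivity)
    _ = η := by
        field_simp
        ring

theorem mom_lim_of {H : ℝ → ℝ} (hH : ContDiff ℝ 2 H) (hp : Function.Periodic H (2 * π)) (hrho : ∀ θ, 0 < H θ + deriv (deriv H) θ) {J : ℕ} (hJ : 1 ≤ J)
    (htail : ∀ η : ℝ, 0 < η → ∃ (n0 : ℕ) (X₀ : ℝ), 1 ≤ X₀ ∧ ∀ X : ℝ, X₀ ≤ X → ∀ c : ℝ × ℝ,
      ∫ R in Icc X (2 * X), |cntc H c R - area H * R ^ 2 - sqrt R * Mx H (2 ^ n0) R c| ^ (2 * J) ≤ η * X ^ (J + 1))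
    (hmean : ∀ N p : ℕ, ∃ m : ℝ, ∀ ε : ℝ, 0 < ε → ∃ X₀ : ℝ, 1 ≤ X₀ ∧ ∀ X : ℝ, X₀ ≤ X → ∀ c : ℝ × ℝ,
      |X⁻¹ * (∫ R in Icc X (2 * X), Mx H N R c ^ p) - m| ≤ ε) {p : ℕ} (hpJ : p ≤ 2 * J) :
    ∃ m : ℝ, ∀ ε : ℝ, 0 < ε → ∃ X₀ : ℝ, 1 ≤ X₀ ∧ ∀ X : ℝ, X₀ ≤ X → ∀ c : ℝ × ℝ,
      |X⁻¹ * (∫ R in Icc X (2 * X), ((cntc H c R - area H * R ^ 2) / sqrt R) ^ p) - m| ≤ ε := by
  classical
  have hc := hH.continuous
  obtain ⟨n1, X₁, hX₁, h1⟩ := htail 1 one_pos
  obtain ⟨B, hB0, hB⟩ := Mx_bd H (2 ^ n1)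
  -- comparison with the main sum
  have keyA : ∀ ε : ℝ, 0 < ε → ∃ (N : ℕ) (X₀ : ℝ), 1 ≤ X₀ ∧ ∀ X : ℝ, X₀ ≤ X → ∀ c : ℝ × ℝ,
      |X⁻¹ * (∫ R in Icc X (2 * X), ((cntc H c R - area H * R ^ 2) / sqrt R) ^ p) -
        X⁻¹ * (∫ R in Icc X (2 * X), Mx H N R c ^ p)| ≤ ε := by
    intro ε hε
    rcases Nat.eq_zero_or_pos p with hp0 | hp1
    · refine ⟨0, 1, le_rfl, fun X _ c => ?_⟩
      simp only [hp0, pow_zero, sub_self, abs_zero]
      exact hε.le
    have hpp : (0 : ℝ) ≤ p := Nat.cast_nonneg p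
    set K : ℝ := p * (1 + 6 ^ (2 * J) * B ^ (2 * J)) + p * 6 ^ (2 * J) + p * 6 ^ (2 * J) with hK
    have hK0 : 0 ≤ K := by positivity
    set lam : ℝ := ε / (2 * (K + 1)) with hlam
    have hl : 0 < lam := by positivity
    have hlK : lam * K ≤ ε / 2 := by
      rw [hlam, div_mul_eq_mul_div, div_le_div_iff₀ (by positivity) (by norm_num)]
      nlinarith
    set D : ℝ := p * (lam⁻¹) ^ (2 * J - 1) with hD
    have hD0 : 0 ≤ D := by positivity
    set η : ℝ := min 1 (ε / (2 * (D + 1))) with hη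
    have hη0 : 0 < η := lt_min one_pos (by positivity)
    have hη1 : η ≤ 1 := min_le_left _ _
    have hηD : D * η ≤ ε / 2 := by
      calc D * η ≤ D * (ε / (2 * (D + 1))) := mul_le_mul_of_nonneg_left (min_le_right _ _) hD0
        _ ≤ ε / 2 := by
            rw [mul_div_assoc', div_le_div_iff₀ (by positivity) (by norm_num)]
            nlinarith
    obtain ⟨n0, X₂, hX₂, h2⟩ := htail η hη0
    refine ⟨2 ^ n0, max X₁ X₂, hX₁.trans (le_max_left _ _), fun X hX c => ?_⟩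
    have hXa : X₁ ≤ X := (le_max_left _ _).trans hX
    have hXb : X₂ ≤ X := (le_max_right _ _).trans hX
    have hX1 : 1 ≤ X := hX₁.trans hXa
    have hX0 : 0 < X := by linarith
    have m1 := tail_mean hc hp c hX1 (2 ^ n1) J (h1 X hXa c)
    have m2 := tail_mean hc hp c hX1 (2 ^ n0) J (h2 X hXb c)
    have bu := u_bm hc hp c hX1
    have bv : BM X (fun R => Mx H (2 ^ n0) R c) := BM.cont (Mx_cont H _ c).continuousOn
    have bv1 : BM X (fun R => Mx H (2 ^ n1) R c) := BM.cont (Mx_cont H _ c).continuousOn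
    have bF : BM X (fun R => |((cntc H c R - area H * R ^ 2) / sqrt R) ^ p - Mx H (2 ^ n0) R c ^ p|) :=
      ((bu.pow p).sub (bv.pow p)).abs
    have hb0 : 0 ≤ p * lam * 6 ^ (2 * J) := by positivity
    have hc0 : 0 ≤ p * lam * 6 ^ (2 * J) + p * (lam⁻¹) ^ (2 * J - 1) := by positivity
    have m3 := mean3 hX1 bF ((bu.sub bv1).abs.pow (2 * J)) ((bu.sub bv).abs.pow (2 * J))
      (a := p * lam * (1 + 6 ^ (2 * J) * B ^ (2 * J))) hb0 hc0 (fun R hR => by
        have h3 := ptw ((cntc H c R - area H * R ^ 2) / sqrt R) (Mx H (2 ^ n0) R c) (Mx H (2 ^ n1) R c) hl hp1 hpJ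
        refine h3.trans ?_
        have h4 : |Mx H (2 ^ n1) R c| ^ (2 * J) ≤ B ^ (2 * J) := pow_le_pow_left₀ (abs_nonneg _) (hB R c) _
        have h5 : (p : ℝ) * lam * (1 + 6 ^ (2 * J) * |Mx H (2 ^ n1) R c| ^ (2 * J)) ≤
            p * lam * (1 + 6 ^ (2 * J) * B ^ (2 * J)) := by
          refine mul_le_mul_of_nonneg_left ?_ (by positivity)
          have := mul_le_mul_of_nonneg_left h4 (by positivity : (0 : ℝ) ≤ 6 ^ (2 * J))
          linarith
        linarith) m1 m2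
    have h6 : |X⁻¹ * (∫ R in Icc X (2 * X), ((cntc H c R - area H * R ^ 2) / sqrt R) ^ p) -
        X⁻¹ * (∫ R in Icc X (2 * X), Mx H (2 ^ n0) R c ^ p)| ≤
        X⁻¹ * ∫ R in Icc X (2 * X), |((cntc H c R - area H * R ^ 2) / sqrt R) ^ p - Mx H (2 ^ n0) R c ^ p| := by
      rw [← mul_sub, ← integral_sub (bu.pow p).int (bv.pow p).int, abs_mul, abs_of_pos (inv_pos.2 hX0)]
      exact mul_le_mul_of_nonneg_left (abs_integral_le_integral_abs) (by positivity)
    refine h6.trans (m3.trans ?_)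
    have h7 : p * lam * 6 ^ (2 * J) * η ≤ p * lam * 6 ^ (2 * J) * 1 := mul_le_mul_of_nonneg_left hη1 hb0
    have h8 : lam * K = p * lam * (1 + 6 ^ (2 * J) * B ^ (2 * J)) + p * lam * 6 ^ (2 * J) * 1 +
        p * lam * 6 ^ (2 * J) * 1 := by
      rw [hK]
      ring
    have h9 : (p * lam * 6 ^ (2 * J) + p * (lam⁻¹) ^ (2 * J - 1)) * η = p * lam * 6 ^ (2 * J) * η + D * η := by
      rw [hD]
      ring
    rw [h9]
    linarith
  -- the moments are almost constant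
  have keyB : ∀ ε : ℝ, 0 < ε → ∃ (m X₀ : ℝ), 1 ≤ X₀ ∧ ∀ X : ℝ, X₀ ≤ X → ∀ c : ℝ × ℝ,
      |X⁻¹ * (∫ R in Icc X (2 * X), ((cntc H c R - area H * R ^ 2) / sqrt R) ^ p) - m| ≤ ε := by
    intro ε hε
    obtain ⟨N, X₂, hX₂, h2⟩ := keyA (ε / 2) (by linarith)
    obtain ⟨m, hm⟩ := hmean N p
    obtain ⟨X₃, hX₃, h3⟩ := hm (ε / 2) (by linarith)
    refine ⟨m, max X₂ X₃, hX₂.trans (le_max_left _ _), fun X hX c => ?_⟩
    have q1 := h2 X ((le_max_left _ _).trans hX) c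
    have q2 := h3 X ((le_max_right _ _).trans hX) c
    have := abs_sub_le (X⁻¹ * (∫ R in Icc X (2 * X), ((cntc H c R - area H * R ^ 2) / sqrt R) ^ p))
      (X⁻¹ * (∫ R in Icc X (2 * X), Mx H N R c ^ p)) m
    linarith
  -- completeness
  have hcau : CauchySeq (fun n : ℕ => ((n : ℝ))⁻¹ * (∫ R in Icc (n : ℝ) (2 * n), ((cntc H 0 R - area H * R ^ 2) / sqrt R) ^ p)) := by
    rw [Metric.cauchySeq_iff]
    intro ε hε
    obtain ⟨m, X₀, hX₀, h0⟩ := keyB (ε / 3) (by linarith)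
    obtain ⟨n₀, hn₀⟩ := exists_nat_ge X₀
    refine ⟨n₀, fun a ha b hb => ?_⟩
    have qa := h0 a (hn₀.trans (by exact_mod_cast ha)) 0
    have qb := h0 b (hn₀.trans (by exact_mod_cast hb)) 0
    rw [Real.dist_eq]
    rw [abs_sub_comm] at qb
    refine lt_of_le_of_lt (abs_sub_le _ m _) ?_
    linarith
  obtain ⟨m, hm⟩ := cauchySeq_tendsto_of_complete hcau
  refine ⟨m, fun ε hε => ?_⟩
  obtain ⟨m', X₀, hX₀, h0⟩ := keyB (ε / 2) (by linarith)
  have hmm : |m' - m| ≤ ε / 2 := by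
    have h3 : Tendsto (fun n : ℕ => |m' - ((n : ℝ))⁻¹ * (∫ R in Icc (n : ℝ) (2 * n), ((cntc H 0 R - area H * R ^ 2) / sqrt R) ^ p)|)
        atTop (𝓝 |m' - m|) := (tendsto_const_nhds.sub hm).abs
    refine le_of_tendsto h3 ?_
    obtain ⟨n₀, hn₀⟩ := exists_nat_ge X₀
    filter_upwards [eventually_ge_atTop n₀] with n hn
    rw [abs_sub_comm]
    exact h0 n (hn₀.trans (by exact_mod_cast hn)) 0
  refine ⟨X₀, hX₀, fun X hX c => ?_⟩
  have := abs_sub_le (X⁻¹ * (∫ R in Icc X (2 * X), ((cntc H c R - area H * R ^ 2) / sqrt R) ^ p)) m' m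
  have := h0 X hX c
  linarith

end Pool.Agent.Helper10.AM
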